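import Pool.Agent.V11225.PS.Time

/-!
# `{C₄, 2K₂}`-free Edge Editing

The problems `C₄`-free Edge Editing and `2K₂`-free Edge Editing (`2K₂` is the complement of `C₄`)
have no polynomial kernel unless `coNP ⊆ NP/poly` (a known fact), but `{C₄, 2K₂}`-free Edge Editing
can be solved in polynomial time; so it has a kernel of constant size.
-/

namespace Pool.Agent.Results.MP_2df4ce_lc.PseudoSplitEditing

open Pool.Agent.NPC Pool.Agent.V11225.PS

/-- **`{C₄, 2K₂}`-free Edge Editing can be solved in polynomial time; there is a polynomial-time
algorithm which maps every instance to an equivalent instance of the same problem of constant size;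
in particular the problem has a polynomial kernel.** -/
theorem result :
    (∃ d : List (List Bool) × ℕ → Bool, Poly d ∧
      ∀ x, d x = true ↔ Editing {C4, twoK2} x) ∧
    (∃ f : List (List Bool) × ℕ → List (List Bool) × ℕ, Poly f ∧
      (∀ x, Editing {C4, twoK2} (f x) ↔ Editing {C4, twoK2} x) ∧
      ∃ c, ∀ x, (bits (f x)).length ≤ c) ∧
    HasPolyKernel (Editing {C4, twoK2}) :=
  ⟨editing_poly, kernel, hasPolyKernel⟩

end Pool.Agent.Results.MP_2df4ce_lc.PseudoSplitEditing
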